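import Pool.Agent.H500.AS.Stm

/-!
# Project AS (helper500), PART 3: the first inequality for a modulus prime to `p`

The proof of `Pool.Agent.Q182.AR.first` with `S_VAp` instead of `S_VA` (helper357).
-/

set_option autoImplicit false
set_option linter.unusedSectionVars false

namespace Pool.Agent.H357.AS.Firstp

open NumberField IsDedekindDomain Pool.Agent.Q5.BR Pool.Agent.Q92.AR Pool.Agent.Q182.AR
open Pool.Agent.H500.AS (UnrAt S_VAp S_Firstp)

/-- the part prime to `p` of an integer divisible by the ramified primes -/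
theorem ram_part {F E : Type} [Field F] [NumberField F] [Field E] [NumberField E] [Algebra F E]
    {p Nr : ℕ} (hp : p.Prime) (hu : UnrAt F E p) (hN : Nr ≠ 0) (hR : Ram F E Nr) :
    ∃ N0 : ℕ, N0 ≠ 0 ∧ ¬ p ∣ N0 ∧ Ram F E N0 := by
  obtain ⟨e, m, hm, hNm⟩ := Nat.exists_eq_pow_mul_and_not_dvd hN p hp.ne_one
  have hm0 : m ≠ 0 := by
    rintro rfl
    exact hm (dvd_zero p)
  refine ⟨m, hm0, hm, ?_⟩
  intro v hv
  have h1 := hR v hv
  rw [hNm, Nat.cast_mul, Nat.cast_pow] at h1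
  have hvp : v.asIdeal.IsPrime := v.isPrime
  rcases hvp.mem_or_mem h1 with h2 | h2
  · exact absurd (hu v (hvp.mem_of_pow_mem _ h2)) hv
  · exact h2

/-- **The first inequality for a modulus prime to `p`.** -/
theorem main : Pool.Agent.H500.AS.S_VAp → Pool.Agent.H500.AS.S_Firstp := by
  classical
  intro hVA
  have hFin : S_Fin := all_Fin
  have hSgn : S_Sgn := Pool.Agent.Q84.AR.sgn
  have hNm : S_Nm := Pool.Agent.Q106.AR.nm
  have hSD : S_SD := all_SD
  have hQ1 : S_Q1 := all_Q1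
  have hHAS : S_HAS := all_HAS
  intro F E _ _ _ _ _ _ σ hσ p hp hu
  obtain ⟨Nr0, hNr00, hRam00⟩ := Pool.Agent.Q280.AR.rF F E
  obtain ⟨Nr, hNr0, hpNr, hRam⟩ := ram_part hp hu hNr00 hRam00
  obtain ⟨N1, N2, hN1, hN2, hpN2, h01, h12, hk, A, hAσ, hA1, hA2, hAH⟩ :=
    hVA F E σ hσ p hp hu Nr hNr0 hpNr
  have hRam1 : Ram F E N1 := fun v hv => mem_dvd h01 (hRam v hv)
  have hRam2 : Ram F E N2 := fun v hv => mem_dvd h12 (hRam1 v hv)
  have hPrF : Pr F N2 = Pr F N1 := Pr_eq h12 hk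
  have hPrE : Pr E N2 = Pr E N1 := Pr_eq h12 hk
  refine ⟨N2, hN2, hpN2, hRam2, ?_⟩
  obtain ⟨m1, m2, m3, m4, m5, m6⟩ := hNm F E
  obtain ⟨s1, s2, s3, s4, s5, s6, s7⟩ := hSD F E σ hσ
  set n := Module.finrank F E with hn
  have hn0 : 0 < n := Module.finrank_pos
  -- the set `T`
  obtain ⟨R1, hR1f, hR1, hR1'⟩ := exists_rep (RayD F N2) (Pr F N2) (hFin F N2 hN2)
  obtain ⟨R2, hR2f, hR2, hR2'⟩ := exists_rep (RayD E N2) (Pr E N2) (hFin E N2 hN2)
  choose cs hcs1 hcs2 using hSgn F N2 hN2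
  let T : Set (HeightOneSpectrum (𝓞 F)) :=
    (⋃ D ∈ R1, {v | D v ≠ 0}) ∪ (⋃ D ∈ R2, (fun w : HeightOneSpectrum (𝓞 E) => w.under (𝓞 F)) ''
      {w | D w ≠ 0}) ∪ ⋃ s, {v | prin (cs s) v ≠ 0}
  have hsupp : ∀ {G : Type} [Field G] [NumberField G] (D : Dv G), {v | D v ≠ 0}.Finite := by
    intro G _ _ D
    refine D.support.finite_toSet.subset fun v hv => ?_
    exact Finset.mem_coe.2 (Finsupp.mem_support_iff.2 hv)
  have hTfin : T.Finite := by
    refine Set.Finite.union (Set.Finite.union ?_ ?_) ?_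
    · exact hR1f.biUnion fun D _ => hsupp D
    · exact hR2f.biUnion fun D _ => (hsupp D).image _
    · have : Finite ((F →+* ℝ) → Prop) := inferInstance
      exact Set.finite_iUnion fun s => hsupp _
  have hTN2 : ∀ v ∈ T, (N2 : 𝓞 F) ∉ v.asIdeal := by
    rintro v ((hv | hv) | hv) hvN
    · obtain ⟨D, hD, hvD⟩ := Set.mem_iUnion₂.1 hv
      exact hvD (hR1 D hD v hvN)
    · obtain ⟨D, hD, w, hw, rfl⟩ := Set.mem_iUnion₂.1 hv
      exact hw (hR2 D hD w (under_mem.1 hvN))
    · obtain ⟨s, hs⟩ := Set.mem_iUnion.1 hv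
      exact hs (prin_mem_Pr (hcs1 s) v hvN)
  have hTN1 : ∀ v ∈ T, (N1 : 𝓞 F) ∉ v.asIdeal := fun v hv h => hTN2 v hv (mem_dvd h12 h)
  have hT1 : ∀ D ∈ Pr F N2, ∃ c ∈ Ray F N2, D - prin c ∈ SupF F T := by
    intro D hD
    obtain ⟨D', hD', h1⟩ := hR1' D hD
    obtain ⟨c, hc, hcD⟩ := mem_RayD.1 h1
    refine ⟨c, hc, ?_⟩
    rw [hcD, sub_sub_cancel]
    intro v hv
    by_contra hne
    exact hv (Or.inl (Or.inl (Set.mem_iUnion₂.2 ⟨D', hD', hne⟩)))
  have hT2 : ∀ D ∈ Pr E N2, ∃ c ∈ Ray E N2, D - prin c ∈ SupE F E T := by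
    intro D hD
    obtain ⟨D', hD', h1⟩ := hR2' D hD
    obtain ⟨c, hc, hcD⟩ := mem_RayD.1 h1
    refine ⟨c, hc, ?_⟩
    rw [hcD, sub_sub_cancel]
    intro w hw
    by_contra hne
    exact hw (Or.inl (Or.inr (Set.mem_iUnion₂.2 ⟨D', hD', w, hne, rfl⟩)))
  have hT3 : ∀ s, prin (cs s) ∈ SupF F T := by
    intro s v hv
    by_contra hne
    exact hv (Or.inr (Set.mem_iUnion.2 ⟨s, hne⟩))
  have hupA : ∀ c : Fˣ, Cong N2 (c : F) → up F E c ∈ A := fun c hc => hA2 _ (m6 N2 c hN2 hc)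
  -- elements of `F` in `A`
  have hFA : ∀ c : Fˣ, up F E c ∈ A → prin c ∈ Pr F N2 := by
    intro c hc
    rw [hPrF, mem_Pr]
    intro v hv
    rw [prin_eq_zero_iff]
    obtain ⟨w, rfl⟩ := exists_above (E := E) v
    rw [val_up]
    exact val_eq_one (under_mem.1 hv) (hA1 _ hc w (under_mem.1 hv))
  have hsup : ∀ c : Fˣ, up F E c ∈ A → (prin (up F E c) ∈ SupE F E T ↔ prin c ∈ SupF F T) := by
    intro c hc
    rw [s5 N2 hRam2 c (hFA c hc)]
    constructor
    · intro h v hv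
      obtain ⟨w, rfl⟩ := exists_above (E := E) v
      rw [← s3]
      exact h w hv
    · intro h w hw
      rw [s3]
      exact h _ hw
  -- the groups
  have hASσ : ∀ x ∈ AS (F := F) A T, sE σ x ∈ AS (F := F) A T := by
    rintro x ⟨hx1, hx2⟩
    refine ⟨hAσ _ hx1, ?_⟩
    rw [s1]
    exact sD_mem σ T hx2
  let τ := resE (sE σ) (AS (F := F) A T) hASσ
  have hτ : IsRes (sE σ) τ := resE_isRes _ _ _
  let ι := resE (sD σ) (SupE F E T) fun D hD => sD_mem σ T hD
  have hι : IsRes (sD σ) ι := resE_isRes _ _ _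
  obtain ⟨hι0, hι1⟩ := s7 T hTfin ι hι
  have hτ1 : q1 τ n = 1 := hQ1 F E σ hσ N1 A T hN1 hRam1 hA1 hAH (by
    intro D hD
    obtain ⟨c, hc, hcD⟩ := hT1 D (by rw [hPrF]; exact hD)
    exact ⟨c, hupA c hc.1, hcD⟩) τ hτ
  obtain ⟨hτ0, -, hmain⟩ := hHAS F E σ hσ N1 N2 A T hN1 hN2 h12 hk hA1 hA2 hTfin hTN1 τ ι hτ hι
  rw [hι1, hτ1, mul_one, mul_one] at hmain
  let J := SupF F T
  let V := (SupE F E T).map (nmD F E)
  let W := (AS (F := F) A T).comap (upA F E)
  let P := (AS (F := F) A T).map (nuA F E)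
  let Q : AddSubgroup (Additive Fˣ) :=
    { carrier := {c | up F E c.toMul ∈ A ∧ ∀ φ : F →+* ℝ,
        (¬ ∃ χ : E →+* ℝ, χ.comp (algebraMap F E) = φ) → 0 < φ ((c.toMul : Fˣ) : F)}
      add_mem' := by
        rintro a b ⟨ha1, ha2⟩ ⟨hb1, hb2⟩
        refine ⟨?_, fun φ hφ => ?_⟩
        · have h : up F E (a.toMul * b.toMul) ∈ A := by
            rw [map_mul]
            exact A.mul_mem ha1 hb1
          exact h
        · have h : 0 < φ (((a.toMul * b.toMul : Fˣ)) : F) := by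
            rw [Units.val_mul, map_mul]
            exact mul_pos (ha2 φ hφ) (hb2 φ hφ)
          exact h
      zero_mem' := by
        refine ⟨?_, fun φ hφ => ?_⟩
        · have h : up F E 1 ∈ A := by
            rw [map_one]
            exact A.one_mem
          exact h
        · have h : 0 < φ ((1 : Fˣ) : F) := by
            rw [Units.val_one, map_one]
            exact one_pos
          exact h
      neg_mem' := by
        rintro a ⟨ha1, ha2⟩
        refine ⟨?_, fun φ hφ => ?_⟩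
        · have h : up F E (a.toMul)⁻¹ ∈ A := by
            rw [map_inv]
            exact A.inv_mem ha1
          exact h
        · have h : 0 < φ (((a.toMul)⁻¹ : Fˣ) : F) := by
            rw [Units.val_inv_eq_inv_val, map_inv₀]
            exact inv_pos.2 (ha2 φ hφ)
          exact h }
  have hQmem : ∀ c : Additive Fˣ, c ∈ Q ↔ up F E c.toMul ∈ A ∧ ∀ φ : F →+* ℝ,
    (¬ ∃ χ : E →+* ℝ, χ.comp (algebraMap F E) = φ) → 0 < φ ((c.toMul : Fˣ) : F) := fun _ => Iff.rfl
  let QT := Q ⊓ W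
  let H := Q.map (prinHom (F := F)) ⊔ V
  have hWmem : ∀ c : Additive Fˣ, c ∈ W ↔ up F E c.toMul ∈ A ∧ prin c.toMul ∈ SupF F T := by
    intro c
    constructor
    · rintro ⟨h1, h2⟩
      exact ⟨h1, (hsup _ h1).1 h2⟩
    · rintro ⟨h1, h2⟩
      exact ⟨h1, (hsup _ h1).2 h2⟩
  -- norms
  have htr : ∀ x ∈ AS (F := F) A T, upA F E (nuA F E x) ∈ AS (F := F) A T := by
    intro x hx
    rw [← tr_sE σ hσ, tr_apply]
    refine AddSubgroup.sum_mem _ fun i _ => ?_
    have h1 := res_pow hτ i ⟨x, hx⟩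
    rw [← h1]
    exact ((τ ^ i) ⟨x, hx⟩).2
  have hQnu : ∀ x : Eˣ, x ∈ A → Additive.ofMul (nu F E x) ∈ Q := by
    intro x hx
    refine ⟨?_, fun φ hφ => m5 φ x hφ⟩
    have h1 : up F E (nu F E x) = ∏ i ∈ Finset.range n, ((sE σ ^ i) (Additive.ofMul x)).toMul := by
      have h2 := tr_sE σ hσ (Additive.ofMul x)
      rw [tr_apply] at h2
      have h3 := congrArg Additive.toMul h2
      rw [toMul_sum] at h3
      exact h3.symm
    change up F E (nu F E x) ∈ A
    rw [h1]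
    refine Subgroup.prod_mem _ fun i hi => ?_
    clear hi
    induction i with
    | zero => exact hx
    | succ i ih =>
      rw [pow_succ']
      exact hAσ _ ih
  have hPQT : P ≤ QT := by
    rintro _ ⟨x, hx, rfl⟩
    exact ⟨hQnu _ hx.1, htr x hx⟩
  have hVJ : V ≤ J := by
    rintro _ ⟨D, hD, rfl⟩
    exact nmD_mem T hD
  have hJPr : J ≤ Pr F N2 := by
    intro D hD v hv
    exact hD v fun hvT => hTN2 v hvT hv
  have hIPr : ∀ D ∈ SupE F E T, D ∈ Pr E N2 := by
    intro D hD w hw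
    exact hD w fun hwT => hTN2 _ hwT (under_mem.2 hw)
  have hHPr : H ≤ Pr F N2 := by
    refine sup_le ?_ (hVJ.trans hJPr)
    rintro _ ⟨c, hc, rfl⟩
    exact hFA _ hc.1
  have hRQ : ∀ c ∈ Ray F N2, Additive.ofMul c ∈ Q := fun c hc =>
    ⟨hupA c hc.1, fun φ _ => hc.2 φ⟩
  have hHN : HN F E N2 ≤ H := by
    refine sup_le ?_ ?_
    · intro D hD
      obtain ⟨c, hc, rfl⟩ := mem_RayD.1 hD
      exact (le_sup_left : _ ≤ H) ⟨Additive.ofMul c, hRQ c hc, rfl⟩
    · rintro _ ⟨D, hD, rfl⟩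
      obtain ⟨x, hx, hxD⟩ := hT2 D hD
      have e : nmD F E D = prin (nu F E x) + nmD F E (D - prin x) := by
        rw [map_sub, m1]
        abel
      rw [e]
      refine H.add_mem ?_ ?_
      · exact (le_sup_left : _ ≤ H) ⟨Additive.ofMul (nu F E x), hQnu x (hA2 x hx.1), rfl⟩
      · exact (le_sup_right : _ ≤ H) ⟨_, hxD, rfl⟩
  have hPrle : Pr F N2 = J ⊔ H := by
    refine le_antisymm ?_ (sup_le hJPr hHPr)
    intro D hD
    obtain ⟨c, hc, hcD⟩ := hT1 D hD
    have e : D = (D - prin c) + prin c := by abel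
    rw [e]
    refine AddSubgroup.add_mem _ ((le_sup_left : J ≤ J ⊔ H) hcD) ((le_sup_right : H ≤ J ⊔ H) ?_)
    exact (le_sup_left : _ ≤ H) ⟨Additive.ofMul c, hRQ c hc, rfl⟩
  have hHJ : H ⊓ J = QT.map (prinHom (F := F)) ⊔ V := by
    apply le_antisymm
    · rintro D ⟨hD1, hD2⟩
      obtain ⟨y, hy, z, hz, rfl⟩ := AddSubgroup.mem_sup.1 hD1
      obtain ⟨c, hc, rfl⟩ := hy
      refine AddSubgroup.add_mem _ ((le_sup_left : _ ≤ QT.map (prinHom (F := F)) ⊔ V) ⟨c, ⟨hc, ?_⟩, rfl⟩)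
        ((le_sup_right : _ ≤ QT.map (prinHom (F := F)) ⊔ V) hz)
      refine (hWmem c).2 ⟨hc.1, ?_⟩
      have h1 := J.sub_mem hD2 (hVJ hz)
      rw [add_sub_cancel_right] at h1
      exact h1
    · refine sup_le ?_ (le_inf le_sup_right hVJ)
      rintro _ ⟨c, hc, rfl⟩
      exact ⟨(le_sup_left : _ ≤ H) ⟨c, hc.1, rfl⟩, ((hWmem c).1 hc.2).2⟩
  -- indices
  have hVV : V ≤ V.comap (AddMonoidHom.id _) := le_rfl
  have hab : V.relIndex (H ⊓ J) ∣ P.relIndex QT := by
    rw [hHJ, AddSubgroup.relIndex_sup_right, ← AddSubgroup.relIndex_comap]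
    apply AddSubgroup.relIndex_dvd_of_le_left
    rintro _ ⟨x, hx, rfl⟩
    exact ⟨prin x.toMul, hx.2, m1 x.toMul⟩
  have hVJi : V.relIndex (H ⊓ J) * H.relIndex J = V.relIndex J := by
    rw [← AddSubgroup.inf_relIndex_right H J]
    exact AddSubgroup.relIndex_mul_relIndex _ _ _ (le_inf le_sup_right hVJ) inf_le_right
  have hPW : P.relIndex QT * QT.relIndex W = P.relIndex W :=
    AddSubgroup.relIndex_mul_relIndex _ _ _ hPQT inf_le_right
  -- the Herbrand quotients
  have hq0τ : q0 τ n = P.relIndex W := by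
    unfold q0
    rw [← AddSubgroup.relIndex_map_map_of_injective _ _ (AddSubgroup.subtype_injective
      (AS (F := F) A T)), ← AddSubgroup.relIndex_map_map_of_injective P W (upA_injective (F := F) (E := E))]
    congr 1
    · ext x
      constructor
      · rintro ⟨_, ⟨y, rfl⟩, rfl⟩
        refine ⟨nuA F E y, ⟨y, y.2, rfl⟩, ?_⟩
        rw [← tr_sE σ hσ, tr_apply, tr_apply, AddSubgroup.subtype_apply,
          AddSubgroup.val_finsetSum]
        exact Finset.sum_congr rfl fun i _ => (res_pow hτ i y).symm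
      · rintro ⟨_, ⟨y, hy, rfl⟩, rfl⟩
        refine ⟨tr τ n ⟨y, hy⟩, ⟨⟨y, hy⟩, rfl⟩, ?_⟩
        rw [← tr_sE σ hσ, tr_apply, tr_apply, AddSubgroup.subtype_apply,
          AddSubgroup.val_finsetSum]
        exact Finset.sum_congr rfl fun i _ => res_pow hτ i ⟨y, hy⟩
    · ext x
      constructor
      · rintro ⟨y, hy, rfl⟩
        have h1 : τ y = y := by
          have h2 : df τ y = 0 := hy
          rw [df_apply, sub_eq_zero] at h2
          exact h2
        obtain ⟨c, hc⟩ := fixed_up σ hσ (y : Additive Eˣ) (by rw [← hτ, h1])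
        refine ⟨c, ?_, hc⟩
        change upA F E c ∈ AS (F := F) A T
        rw [hc]
        exact y.2
      · rintro ⟨c, hc, rfl⟩
        refine ⟨⟨upA F E c, hc⟩, ?_, rfl⟩
        change df τ _ = 0
        rw [df_apply, sub_eq_zero]
        apply Subtype.ext
        rw [hτ]
        apply Additive.toMul.injective
        apply Units.ext
        exact σ.commutes _
  have hpuinj : Function.Injective (puD F E) := by
    intro D D' h
    ext v
    obtain ⟨w, rfl⟩ := exists_above (E := E) v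
    rw [← s3, ← s3, h]
  have hq0ι : q0 ι n = V.relIndex J := by
    unfold q0
    rw [← AddSubgroup.relIndex_map_map_of_injective _ _ (AddSubgroup.subtype_injective
      (SupE F E T)), ← AddSubgroup.relIndex_map_map_of_injective V J hpuinj]
    congr 1
    · ext x
      constructor
      · rintro ⟨_, ⟨y, rfl⟩, rfl⟩
        refine ⟨nmD F E y, ⟨y, y.2, rfl⟩, ?_⟩
        rw [← s4 N2 hRam2 _ (hIPr _ y.2), tr_apply, tr_apply, AddSubgroup.subtype_apply,
          AddSubgroup.val_finsetSum]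
        exact Finset.sum_congr rfl fun i _ => (res_pow hι i y).symm
      · rintro ⟨_, ⟨y, hy, rfl⟩, rfl⟩
        refine ⟨tr ι n ⟨y, hy⟩, ⟨⟨y, hy⟩, rfl⟩, ?_⟩
        rw [← s4 N2 hRam2 _ (hIPr _ hy), tr_apply, tr_apply, AddSubgroup.subtype_apply,
          AddSubgroup.val_finsetSum]
        exact Finset.sum_congr rfl fun i _ => res_pow hι i ⟨y, hy⟩
    · ext x
      constructor
      · rintro ⟨y, hy, rfl⟩
        have h1 : ι y = y := by
          have h2 : df ι y = 0 := hy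
          rw [df_apply, sub_eq_zero] at h2
          exact h2
        obtain ⟨c, hc⟩ := s6 (y : Dv E) (by rw [← hι, h1])
        refine ⟨c, ?_, hc.symm⟩
        intro v hv
        obtain ⟨w, rfl⟩ := exists_above (E := E) v
        rw [← s3, ← hc]
        exact y.2 w hv
      · rintro ⟨c, hc, rfl⟩
        have hc' : puD F E c ∈ SupE F E T := by
          intro w hw
          rw [s3]
          exact hc _ hw
        refine ⟨⟨puD F E c, hc'⟩, ?_, rfl⟩
        change df ι _ = 0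
        rw [df_apply, sub_eq_zero]
        apply Subtype.ext
        rw [hι]
        change sD σ (puD F E c) = puD F E c
        ext w
        have h5 : ∀ D : Dv E, sD σ D w = D (Pool.Agent.TeamU.act σ⁻¹ w) := by
          intro D
          have h6 : w = Pool.Agent.TeamU.act σ (Pool.Agent.TeamU.act σ⁻¹ w) := by
            rw [← Pool.Agent.TeamU.act_mul, mul_inv_cancel, Pool.Agent.TeamU.act_one]
          conv_lhs => rw [h6]
          refine Finsupp.mapDomain_apply ?_ _ _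
          intro a b hab'
          have h7 := congrArg (Pool.Agent.TeamU.act σ⁻¹) hab'
          rw [← Pool.Agent.TeamU.act_mul, ← Pool.Agent.TeamU.act_mul, inv_mul_cancel,
            Pool.Agent.TeamU.act_one, Pool.Agent.TeamU.act_one] at h7
          exact h7
        rw [h5, s3, s3, under_act]
  -- the signs
  have hb0 : P.relIndex QT ≠ 0 := by
    intro h
    apply hτ0
    rw [hq0τ, ← hPW, h, zero_mul]
  have ht0 : QT.relIndex W ≠ 0 := by
    intro h
    apply hτ0
    rw [hq0τ, ← hPW, h, mul_zero]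
  have ht : 2 ^ Nat.card (RealRam F E) ≤ QT.relIndex W := by
    have hfi : (QT.addSubgroupOf W).FiniteIndex := ⟨ht0⟩
    have hf : Finite (W ⧸ QT.addSubgroupOf W) := AddSubgroup.finite_quotient_of_finiteIndex
    have hfR : Finite (RealRam F E) := by
      unfold RealRam
      infer_instance
    have hcard : Nat.card (RealRam F E → Bool) = 2 ^ Nat.card (RealRam F E) := by
      rw [Nat.card_fun, Nat.card_eq_fintype_card (α := Bool), Fintype.card_bool]
    rw [← hcard]
    let sg : (RealRam F E → Bool) → ((F →+* ℝ) → Prop) := fun s φ =>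
      ∀ h : ¬ ∃ χ : E →+* ℝ, χ.comp (algebraMap F E) = φ, s ⟨φ, h⟩ = true
    let f : (RealRam F E → Bool) → (W ⧸ QT.addSubgroupOf W) := fun s =>
      QuotientAddGroup.mk ⟨Additive.ofMul (cs (sg s)),
        (hWmem _).2 ⟨hupA _ (hcs1 _), hT3 _⟩⟩
    change Nat.card (RealRam F E → Bool) ≤ Nat.card (W ⧸ QT.addSubgroupOf W)
    refine Nat.card_le_card_of_injective f ?_
    intro s s' h
    have h1 := QuotientAddGroup.eq.1 h
    rw [AddSubgroup.mem_addSubgroupOf] at h1
    have h2 := (h1.1 : _ ∈ Q).2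
    funext φ
    have h3 := h2 φ.1 φ.2
    have h4 : 0 < φ.1 ((((cs (sg s))⁻¹ * cs (sg s') : Fˣ)) : F) := h3
    rw [Units.val_mul, Units.val_inv_eq_inv_val, map_mul, map_inv₀] at h4
    have h5 : 0 < φ.1 ((cs (sg s) : Fˣ) : F) ↔ 0 < φ.1 ((cs (sg s') : Fˣ) : F) := by
      constructor
      · intro h6
        exact (mul_pos_iff_of_pos_left (inv_pos.2 h6)).1 h4
      · intro h6
        exact inv_pos.1 ((mul_pos_iff_of_pos_right h6).1 h4)
    rw [hcs2, hcs2] at h5
    have h6 : ∀ s : RealRam F E → Bool, sg s φ.1 ↔ s φ = true := fun s =>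
      ⟨fun h => h φ.2, fun h _ => h⟩
    rw [h6, h6] at h5
    exact Bool.eq_iff_iff.2 h5
  -- the end
  have hi : n ≤ H.relIndex J := by
    have hale : V.relIndex (H ⊓ J) ≤ P.relIndex QT := Nat.le_of_dvd (Nat.pos_of_ne_zero hb0) hab
    rw [hq0τ, hq0ι, ← hPW, ← hVJi] at hmain
    have h2r : 0 < 2 ^ Nat.card (RealRam F E) := by positivity
    have hpos : 0 < P.relIndex QT * 2 ^ Nat.card (RealRam F E) :=
      Nat.mul_pos (Nat.pos_of_ne_zero hb0) h2r
    refine Nat.le_of_mul_le_mul_left ?_ hpos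
    calc P.relIndex QT * 2 ^ Nat.card (RealRam F E) * n
        ≤ P.relIndex QT * QT.relIndex W * n :=
          Nat.mul_le_mul_right _ (Nat.mul_le_mul_left _ ht)
      _ = 2 ^ Nat.card (RealRam F E) * (V.relIndex (H ⊓ J) * H.relIndex J) := hmain
      _ ≤ 2 ^ Nat.card (RealRam F E) * (P.relIndex QT * H.relIndex J) :=
          Nat.mul_le_mul_left _ (Nat.mul_le_mul_right _ hale)
      _ = _ := by ring
  have hj : H.relIndex (Pr F N2) = H.relIndex J := by
    rw [hPrle, AddSubgroup.relIndex_sup_right]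
  have hdv : H.relIndex (Pr F N2) ∣ (HN F E N2).relIndex (Pr F N2) :=
    AddSubgroup.relIndex_dvd_of_le_left _ hHN
  rcases Nat.eq_zero_or_pos ((HN F E N2).relIndex (Pr F N2)) with h0 | h0
  · exact Or.inl h0
  · right
    rw [hj] at hdv
    exact hi.trans (Nat.le_of_dvd h0 hdv)

end Pool.Agent.H357.AS.Firstp
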